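import Pool.Agent.Helper17.ZE.NS

open Finset

namespace Pool.Agent.Helper17.ZE

open MvPolynomial

/-- The binomial polynomial `X choose k` over a field. -/
noncomputable def bp (F : Type*) [Field F] (k : ℕ) : Polynomial F :=
  Polynomial.C ((k.factorial : F)⁻¹) * descPochhammer F k

theorem bp_eval {F : Type*} [Field F] (k n : ℕ) (hk : (k.factorial : F) ≠ 0) :
    (bp F k).eval (n : F) = (n.choose k : F) := by
  unfold bp
  rw [Polynomial.eval_mul, Polynomial.eval_C, descPochhammer_eval_eq_descFactorial,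
    Nat.descFactorial_eq_factorial_mul_choose]
  push_cast
  field_simp

theorem bp_deg {F : Type*} [Field F] (k : ℕ) : (bp F k).natDegree ≤ k := by
  unfold bp
  refine (Polynomial.natDegree_C_mul_le _ _).trans ?_
  rw [descPochhammer_natDegree]

theorem aeval_X_deg {F : Type*} [Field F] {n : ℕ} (i : Fin n) (p : Polynomial F) :
    (Polynomial.aeval (X i : MvPolynomial (Fin n) F) p).totalDegree ≤ p.natDegree := by
  rw [Polynomial.aeval_eq_sum_range]
  apply totalDegree_finsetSum_le
  intro k hk
  refine (totalDegree_smul_le _ _).trans ?_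
  refine (totalDegree_pow _ _).trans ?_
  rw [totalDegree_X, mul_one]
  exact Nat.lt_succ_iff.mp (Finset.mem_range.mp hk)

/-- The polynomial with given binomial coefficients; variable `0` is `f`, variable `i.succ`
is `x i`. -/
noncomputable def bigP {F : Type*} [Field F] {r : ℕ} (J : Finset ((Fin r → ℕ) × ℕ))
    (cc : (Fin r → ℕ) × ℕ → F) : MvPolynomial (Fin (r + 1)) F :=
  ∑ p ∈ J, C (cc p) * ((∏ i : Fin r, Polynomial.aeval (X i.succ) (bp F (p.1 i))) *
    Polynomial.aeval (X 0) (bp F p.2))

theorem bigP_deg {F : Type*} [Field F] {r s : ℕ} (J : Finset ((Fin r → ℕ) × ℕ))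
    (cc : (Fin r → ℕ) × ℕ → F) (hs0 : 0 < s) (hJ : ∀ p ∈ J, (∑ i, p.1 i) + p.2 < s) :
    (bigP J cc).totalDegree < s := by
  have h : (bigP J cc).totalDegree ≤ s - 1 := by
    apply totalDegree_finsetSum_le
    intro p hp
    refine (totalDegree_mul _ _).trans ?_
    rw [totalDegree_C, zero_add]
    refine (totalDegree_mul _ _).trans ?_
    have h1 : (∏ i : Fin r, Polynomial.aeval (X i.succ : MvPolynomial (Fin (r + 1)) F)
        (bp F (p.1 i))).totalDegree ≤ ∑ i, p.1 i := by
      refine (totalDegree_finsetProd _ _).trans ?_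
      apply Finset.sum_le_sum
      intro i _
      exact (aeval_X_deg _ _).trans (bp_deg _)
    have h2 : (Polynomial.aeval (X 0 : MvPolynomial (Fin (r + 1)) F) (bp F p.2)).totalDegree
        ≤ p.2 := (aeval_X_deg _ _).trans (bp_deg _)
    have h3 := hJ p hp
    omega
  omega

theorem bigP_eval {F : Type*} [Field F] {r : ℕ} (J : Finset ((Fin r → ℕ) × ℕ))
    (cc : (Fin r → ℕ) × ℕ → F) (hfac : ∀ p ∈ J, (∀ i, ((p.1 i).factorial : F) ≠ 0) ∧
      ((p.2).factorial : F) ≠ 0) (y : Fin (r + 1) → F) (x : Fin r → ℕ) (f : ℕ)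
    (hx : ∀ i : Fin r, y i.succ = (x i : F)) (hf : y 0 = (f : F)) :
    eval y (bigP J cc) =
      ∑ p ∈ J, cc p * (∏ i, ((x i).choose (p.1 i) : F)) * (f.choose p.2 : F) := by
  have ha : ∀ (i : Fin (r + 1)) (p : Polynomial F),
      eval y (Polynomial.aeval (X i : MvPolynomial (Fin (r + 1)) F) p) = p.eval (y i) := by
    intro i p
    have h1 := Polynomial.aeval_algHom_apply
      (MvPolynomial.aeval y : MvPolynomial (Fin (r + 1)) F →ₐ[F] F) (X i) p
    rw [MvPolynomial.aeval_X, Polynomial.coe_aeval_eq_eval] at h1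
    rw [h1, ← MvPolynomial.coe_aeval_eq_eval]
    rfl
  unfold bigP
  rw [map_sum]
  apply Finset.sum_congr rfl
  intro p hp
  rw [map_mul, map_mul, map_prod, eval_C, ha, hf, bp_eval _ _ (hfac p hp).2, mul_assoc]
  congr 2
  apply Finset.prod_congr rfl
  intro i _
  rw [ha, hx, bp_eval _ _ ((hfac p hp).1 i)]

/-- If the polynomial is zero then all coefficients are zero. -/
theorem bigP_zero {F : Type*} [Field F] {r : ℕ} (J : Finset ((Fin r → ℕ) × ℕ))
    (cc : (Fin r → ℕ) × ℕ → F) (hfac : ∀ p ∈ J, (∀ i, ((p.1 i).factorial : F) ≠ 0) ∧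
      ((p.2).factorial : F) ≠ 0) (h : bigP J cc = 0) : ∀ p ∈ J, cc p = 0 := by
  classical
  by_contra hcon
  push Not at hcon
  obtain ⟨p0, hp0, hc0⟩ := hcon
  have hne : (J.filter (fun p => cc p ≠ 0)).Nonempty := ⟨p0, by simp [hp0, hc0]⟩
  obtain ⟨p, hp, hmin⟩ := Finset.exists_min_image (J.filter (fun p => cc p ≠ 0))
    (fun p => (∑ i, p.1 i) + p.2) hne
  rw [Finset.mem_filter] at hp
  have hev := bigP_eval J cc hfac (Fin.cons (p.2 : F) (fun i => (p.1 i : F))) p.1 p.2
    (fun i => by simp) (by simp)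
  rw [h, map_zero] at hev
  rw [Finset.sum_eq_single p] at hev
  · simp at hev
    exact hp.2 hev.symm
  · intro p' hp' hne'
    by_cases hc : cc p' = 0
    · simp [hc]
    have hm := hmin p' (by simp [hp', hc])
    by_cases hle : (∀ i, p'.1 i ≤ p.1 i) ∧ p'.2 ≤ p.2
    · exfalso
      apply hne'
      have h1 : ∑ i, p'.1 i ≤ ∑ i, p.1 i := Finset.sum_le_sum (fun i _ => hle.1 i)
      have h2 : ∑ i, p'.1 i = ∑ i, p.1 i := by have := hle.2; omega
      have h3 : p'.2 = p.2 := by have := hle.2; omega
      have h4 : ∀ i ∈ Finset.univ, p'.1 i = p.1 i :=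
        (Finset.sum_eq_sum_iff_of_le (fun i _ => hle.1 i)).mp h2
      exact Prod.ext (funext (fun i => h4 i (Finset.mem_univ i))) h3
    · rw [not_and_or] at hle
      rcases hle with hle | hle
      · push Not at hle
        obtain ⟨i, hi⟩ := hle
        rw [Finset.prod_eq_zero (Finset.mem_univ i)]
        · simp
        · rw [Nat.choose_eq_zero_of_lt hi]
          simp
      · push Not at hle
        rw [Nat.choose_eq_zero_of_lt hle]
        simp
  · intro hn
    exact absurd hp.1 hn

/-- The matrix of the moves; row `0` is the change of `f`, row `i.succ` the change of `x i`. -/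
def moveT {F : Type*} [Field F] {r : ℕ} (g : Fin (r + 1) → ℤ) :
    Matrix (Fin (r + 1)) (Fin (r + 1)) F :=
  fun a j => Fin.cases ((g j : ℤ) : F)
    (fun i : Fin r => (if j = i.succ + 1 then 1 else 0) - (if j = i.succ then 1 else 0)) a

theorem moveT_unit {F : Type*} [Field F] {r : ℕ} (g : Fin (r + 1) → ℤ) (hg : ∑ i, g i = -1) :
    ∃ T' : Matrix (Fin (r + 1)) (Fin (r + 1)) F, moveT g * T' = 1 := by
  have hinj : Function.Injective (moveT (F := F) g).mulVec := by
    rw [← Matrix.coe_mulVecLin, injective_iff_map_eq_zero]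
    intro v hv
    rw [Matrix.mulVecLin_apply] at hv
    have h1 : ∀ i : Fin r, v (i.succ + 1) = v i.succ := by
      intro i
      have := congrFun hv i.succ
      simp only [Matrix.mulVec, dotProduct, moveT, Fin.cases_succ, Pi.zero_apply, sub_mul,
        Finset.sum_sub_distrib, ite_mul, one_mul, zero_mul, Finset.sum_ite_eq',
        Finset.mem_univ, if_true] at this
      exact sub_eq_zero.mp this
    have h2 : ∀ j : Fin (r + 1), v j = v 0 := by
      intro j
      induction j using Fin.reverseInduction with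
      | last =>
        rcases Nat.eq_zero_or_pos r with hr | hr
        · subst hr
          rfl
        · obtain ⟨r', rfl⟩ : ∃ r', r = r' + 1 := ⟨r - 1, by omega⟩
          have := h1 (Fin.last r')
          rw [Fin.succ_last, Fin.last_add_one] at this
          exact this.symm
      | cast i ih =>
        by_cases hi : i.castSucc = 0
        · rw [hi]
        · obtain ⟨i', hi'⟩ := Fin.exists_succ_eq.mpr hi
          have := h1 i'
          rw [hi', Fin.coeSucc_eq_succ] at this
          rw [← this]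
          exact ih
    have h3 : ∑ j, ((g j : ℤ) : F) * v j = 0 := by
      have := congrFun hv 0
      simpa [Matrix.mulVec, dotProduct, moveT] using this
    have h4 : ∑ j, ((g j : ℤ) : F) * v j = - v 0 := by
      have : ∑ j, ((g j : ℤ) : F) * v j = (∑ j, ((g j : ℤ) : F)) * v 0 := by
        rw [Finset.sum_mul]
        apply Finset.sum_congr rfl
        intro j _
        rw [h2 j]
      rw [this, ← Int.cast_sum, hg]
      simp
    have h5 : v 0 = 0 := by
      rw [h3] at h4
      exact (neg_eq_zero.mp h4.symm)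
    funext j
    rw [h2 j, h5]
    rfl
  have hu : IsUnit (moveT (F := F) g) := Matrix.mulVec_injective_iff_isUnit.mp hinj
  obtain ⟨u, hu⟩ := hu
  exact ⟨(u⁻¹ : (Matrix (Fin (r + 1)) (Fin (r + 1)) F)ˣ), by rw [← hu]; simp⟩

theorem prod_zpow' {F ι : Type*} [Field F] (S : Finset ι) (x : F) (hx : x ≠ 0) (e : ι → ℤ) :
    ∏ j ∈ S, x ^ e j = x ^ ∑ j ∈ S, e j := by
  classical
  induction S using Finset.induction_on with
  | empty => simp
  | insert a S ha ih => rw [Finset.prod_insert ha, Finset.sum_insert ha, zpow_add₀ hx, ih]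

/-- Exponent of `rho i` in the move `j`. -/
def ex {r : ℕ} (i : Fin r) (j : Fin (r + 1)) : ℤ :=
  (if j = i.succ + 1 then 1 else 0) - (if j = i.succ then 1 else 0)

theorem ex_sum {r : ℕ} (i : Fin r) : ∑ j, ex i j = 0 := by
  unfold ex
  rw [Finset.sum_sub_distrib]
  simp

theorem ex_mul {r : ℕ} (i : Fin r) (m : Fin (r + 1) → ℕ) :
    ∑ j, ex i j * (m j : ℤ) = m (i.succ + 1) - m i.succ := by
  unfold ex
  simp only [sub_mul, Finset.sum_sub_distrib, ite_mul, one_mul, zero_mul,
    Finset.sum_ite_eq', Finset.mem_univ, if_true]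

theorem moveT_succ {F : Type*} [Field F] {r : ℕ} (g : Fin (r + 1) → ℤ) (i : Fin r)
    (j : Fin (r + 1)) : moveT (F := F) g i.succ j = ((ex i j : ℤ) : F) := by
  unfold moveT ex
  simp

theorem moveT_zero {F : Type*} [Field F] {r : ℕ} (g : Fin (r + 1) → ℤ)
    (j : Fin (r + 1)) : moveT (F := F) g 0 j = ((g j : ℤ) : F) := by
  unfold moveT
  simp

theorem aeval_line {F : Type*} [Field F] {n : ℕ} (P : MvPolynomial (Fin n) F)
    (b t : Fin n → F) : ∃ p : Polynomial F, p.natDegree ≤ P.totalDegree ∧
      ∀ z : F, p.eval z = eval (fun a => b a + t a * z) P := by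
  refine ⟨aeval (fun a => Polynomial.C (b a) + Polynomial.C (t a) * Polynomial.X) P, ?_, ?_⟩
  · have := aeval_natDegree_le (m := P.totalDegree) (n := 1) P le_rfl
      (fun a => Polynomial.C (b a) + Polynomial.C (t a) * Polynomial.X) (fun a => by
        refine (Polynomial.natDegree_add_le _ _).trans ?_
        rw [Polynomial.natDegree_C]
        refine max_le (by norm_num) ?_
        refine (Polynomial.natDegree_C_mul_le _ _).trans ?_
        rw [Polynomial.natDegree_X])
    simpa using this
  · intro z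
    have h1 := MvPolynomial.comp_aeval_apply
      (f := fun a => Polynomial.C (b a) + Polynomial.C (t a) * Polynomial.X)
      (φ := (Polynomial.aeval z : Polynomial F →ₐ[F] F)) P
    rw [Polynomial.coe_aeval_eq_eval] at h1
    rw [h1]
    have h2 : (fun i => Polynomial.eval z (Polynomial.C (b i) + Polynomial.C (t i) * Polynomial.X))
        = (fun a => b a + t a * z) := by
      funext a
      simp
    rw [h2]
    rw [← MvPolynomial.coe_aeval_eq_eval]
    rfl

/-- The class lemma: a polynomial of degree `< s` plus a multiple of a character, which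
vanishes on the boxes of the moves, is zero. -/
theorem class_lemma {q : ℕ} [Fact q.Prime] (r s : ℕ) (hs0 : 0 < s) (hs : s < q)
    (g : Fin (r + 1) → ℤ) (hg : ∑ i, g i = -1)
    (J : Finset ((Fin r → ℕ) × ℕ)) (hJ : ∀ p ∈ J, (∑ i, p.1 i) + p.2 < s)
    (cc : (Fin r → ℕ) × ℕ → ZMod q) (dd : ZMod q)
    (rho : Fin r → ZMod q) (hrho : ∀ i, rho i ≠ 0) (kap : ZMod q) (hk0 : kap ≠ 0)
    (hk1 : kap ≠ 1)
    (H : ∀ gam : Fin (r + 1) → ℕ, ∑ i, gam i ≤ s → ∃ f0 : ℤ, ∀ m : Fin (r + 1) → ℕ,
      (∀ i, m i ≤ gam i) → ∃ (x : Fin r → ℕ) (f : ℕ),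
        (∀ i : Fin r, (x i : ℤ) = gam i.succ + m (i.succ + 1) - m i.succ) ∧
        (f : ℤ) = f0 + ∑ i, (m i : ℤ) * g i ∧
        (∑ p ∈ J, cc p * (∏ i, ((x i).choose (p.1 i) : ZMod q)) * (f.choose p.2 : ZMod q)) +
          dd * (∏ i, rho i ^ x i) * kap ^ f = 0) :
    (∀ p ∈ J, cc p = 0) ∧ dd = 0 := by
  classical
  have hq : q.Prime := Fact.out
  have hfac1 : ∀ k : ℕ, k < s → ((k.factorial : ℕ) : ZMod q) ≠ 0 := by
    intro k hk h
    rw [ZMod.natCast_eq_zero_iff, hq.dvd_factorial] at h
    omega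
  have hfac : ∀ p ∈ J, (∀ i, (((p.1 i).factorial : ℕ) : ZMod q) ≠ 0) ∧
      (((p.2).factorial : ℕ) : ZMod q) ≠ 0 := by
    intro p hp
    have h1 := hJ p hp
    refine ⟨fun i => hfac1 _ ?_, hfac1 _ (by omega)⟩
    have h2 : p.1 i ≤ ∑ i, p.1 i :=
      Finset.single_le_sum (f := p.1) (fun j _ => Nat.zero_le _) (Finset.mem_univ i)
    omega
  set P := bigP J cc with hP
  have hdeg : P.totalDegree < s := bigP_deg J cc hs0 hJ
  -- values at the moved points
  have hval : ∀ (gam m : Fin (r + 1) → ℕ) (f0 : ℤ) (x : Fin r → ℕ) (f : ℕ),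
      (∀ i : Fin r, (x i : ℤ) = gam i.succ + m (i.succ + 1) - m i.succ) →
      (f : ℤ) = f0 + ∑ i, (m i : ℤ) * g i →
      eval (fun a => (Fin.cons (f0 : ZMod q) (fun i => (gam i.succ : ZMod q)) :
        Fin (r + 1) → ZMod q) a + ∑ j, moveT g a j * (m j : ZMod q)) P =
      ∑ p ∈ J, cc p * (∏ i, ((x i).choose (p.1 i) : ZMod q)) * (f.choose p.2 : ZMod q) := by
    intro gam m f0 x f hx hf
    apply bigP_eval J cc hfac
    · intro i
      have h1 : ((x i : ℤ) : ZMod q) = ((gam i.succ + ∑ j, ex i j * (m j : ℤ) : ℤ) : ZMod q) := by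
        rw [ex_mul, hx i]
        congr 1
        ring
      simp only [Fin.cons_succ, moveT_succ]
      rw [Int.cast_natCast] at h1
      rw [h1]
      push_cast
      ring
    · have h1 : ((f : ℤ) : ZMod q) = ((f0 + ∑ i, (m i : ℤ) * g i : ℤ) : ZMod q) := by rw [hf]
      simp only [Fin.cons_zero, moveT_zero]
      rw [Int.cast_natCast] at h1
      rw [h1]
      push_cast
      congr 1
      apply Finset.sum_congr rfl
      intro j _
      ring
  have hdd : dd = 0 := by
    by_contra hd
    set w : Fin (r + 1) → ZMod q := fun j => (∏ i, rho i ^ ex i j) * kap ^ g j with hw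
    have hprod : ∏ j, w j = kap⁻¹ := by
      rw [hw, Finset.prod_mul_distrib, Finset.prod_comm]
      have h1 : ∀ i ∈ (Finset.univ : Finset (Fin r)), ∏ j, rho i ^ ex i j = 1 := by
        intro i _
        rw [prod_zpow' _ _ (hrho i), ex_sum, zpow_zero]
      rw [Finset.prod_congr rfl h1, Finset.prod_const_one, one_mul, prod_zpow' _ _ hk0, hg,
        zpow_neg_one]
    obtain ⟨j, hj⟩ : ∃ j, w j ≠ 1 := by
      by_contra hcon
      push Not at hcon
      rw [Finset.prod_congr rfl (fun j _ => hcon j), Finset.prod_const_one] at hprod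
      exact hk1 (inv_eq_one.mp hprod.symm)
    obtain ⟨f0, hf0⟩ := H (Pi.single j s) (by rw [Finset.sum_pi_single']; simp)
    obtain ⟨p, hpdeg, hpev⟩ := aeval_line P
      (Fin.cons (f0 : ZMod q) (fun i => ((Pi.single j s : Fin (r + 1) → ℕ) i.succ : ZMod q)) :
        Fin (r + 1) → ZMod q) (fun a => moveT g a j)
    have hc := line_char s p (lt_of_le_of_lt hpdeg hdeg)
      (dd * ((∏ i, rho i ^ (((Pi.single j s : Fin (r + 1) → ℕ) i.succ : ℕ) : ℤ)) * kap ^ f0))
      (w j) hj (by
        intro k hk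
        obtain ⟨x, f, hx, hf, hΦ⟩ := hf0 (Pi.single j k) (by
          intro i
          by_cases hi : i = j
          · subst hi; simpa using hk
          · simp [Pi.single_eq_of_ne hi])
        have h1 := hval (Pi.single j s) (Pi.single j k) f0 x f hx hf
        have h2 : (fun a => (Fin.cons (f0 : ZMod q)
            (fun i => ((Pi.single j s : Fin (r + 1) → ℕ) i.succ : ZMod q)) :
            Fin (r + 1) → ZMod q) a + ∑ l, moveT g a l *
              (((Pi.single j k : Fin (r + 1) → ℕ) l : ℕ) : ZMod q)) =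
            (fun a => (Fin.cons (f0 : ZMod q)
            (fun i => ((Pi.single j s : Fin (r + 1) → ℕ) i.succ : ZMod q)) :
            Fin (r + 1) → ZMod q) a + moveT g a j * (k : ZMod q)) := by
          funext a
          congr 1
          rw [Finset.sum_eq_single j]
          · simp
          · intro l _ hl
            simp [Pi.single_eq_of_ne hl]
          · simp
        rw [h2, ← hpev] at h1
        rw [h1, ← hΦ]
        congr 1
        have h3 : ∀ i : Fin r, rho i ^ x i =
            rho i ^ (((Pi.single j s : Fin (r + 1) → ℕ) i.succ : ℕ) : ℤ) *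
              (rho i ^ ex i j) ^ k := by
          intro i
          have h4 : (x i : ℤ) = (((Pi.single j s : Fin (r + 1) → ℕ) i.succ : ℕ) : ℤ) +
              ex i j * (k : ℤ) := by
            have h5 := ex_mul i (Pi.single j k : Fin (r + 1) → ℕ)
            rw [Finset.sum_eq_single j] at h5
            · rw [Pi.single_eq_same] at h5
              rw [h5, hx i]
              ring
            · intro l _ hl
              simp [Pi.single_eq_of_ne hl]
            · simp
          rw [← zpow_natCast (rho i) (x i), h4, zpow_add₀ (hrho i), zpow_mul,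
            zpow_natCast (rho i ^ ex i j) k]
        have h6 : kap ^ f = kap ^ f0 * (kap ^ g j) ^ k := by
          have h7 : (f : ℤ) = f0 + g j * (k : ℤ) := by
            rw [hf]
            congr 1
            rw [Finset.sum_eq_single j]
            · rw [Pi.single_eq_same]
              ring
            · intro l _ hl
              simp [Pi.single_eq_of_ne hl]
            · simp
          rw [← zpow_natCast kap f, h7, zpow_add₀ hk0, zpow_mul, zpow_natCast]
        rw [Finset.prod_congr rfl (fun i _ => h3 i), Finset.prod_mul_distrib, h6, hw]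
        simp only
        rw [mul_pow, Finset.prod_pow]
        ring)
    have hne : (∏ i, rho i ^ (((Pi.single j s : Fin (r + 1) → ℕ) i.succ : ℕ) : ℤ)) * kap ^ f0
        ≠ 0 := by
      apply mul_ne_zero
      · exact Finset.prod_ne_zero_iff.mpr (fun i _ => zpow_ne_zero _ (hrho i))
      · exact zpow_ne_zero _ hk0
    rcases mul_eq_zero.mp hc with h | h
    · exact hd h
    · exact hne h
  refine ⟨?_, hdd⟩
  apply bigP_zero J cc hfac
  by_contra hP0
  obtain ⟨T', hT'⟩ := moveT_unit (F := ZMod q) g hg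
  obtain ⟨γ, hγ, hb⟩ := ns P hP0 (moveT g) T' hT' (by
    intro a b ha hb hab
    rw [ZMod.natCast_eq_natCast_iff'] at hab
    rwa [Nat.mod_eq_of_lt (by omega), Nat.mod_eq_of_lt (by omega)] at hab)
  obtain ⟨f0, hf0⟩ := H γ (by omega)
  obtain ⟨m, hm, hne⟩ := hb (Fin.cons (f0 : ZMod q) (fun i => (γ i.succ : ZMod q)) :
    Fin (r + 1) → ZMod q)
  obtain ⟨x, f, hx, hf, hΦ⟩ := hf0 m hm
  rw [hval γ m f0 x f hx hf] at hne
  apply hne
  rw [hdd] at hΦ
  simpa using hΦ

end Pool.Agent.Helper17.ZE
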