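import Mathlib

open Finset

namespace Pool.Agent.Helper17.ZE

open MvPolynomial

/-- The linear forms of a matrix. -/
noncomputable def form {F : Type*} [Field F] {n : ℕ} (T : Matrix (Fin n) (Fin n) F) (i : Fin n) :
    MvPolynomial (Fin n) F := ∑ j, C (T i j) * X j

theorem form_bind {F : Type*} [Field F] {n : ℕ} (T T' : Matrix (Fin n) (Fin n) F)
    (h : T * T' = 1) (P : MvPolynomial (Fin n) F) :
    bind₁ (form T') (bind₁ (form T) P) = P := by
  rw [bind₁_bind₁]
  have h1 : (fun i => (bind₁ (form T')) (form T i)) = (X : Fin n → MvPolynomial (Fin n) F) := by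
    funext i
    have h2 : (bind₁ (form T')) (form T i) = ∑ k, C ((T * T') i k) * X k := by
      unfold form
      rw [map_sum]
      simp only [map_mul, bind₁_C_right, bind₁_X_right]
      simp only [Finset.mul_sum]
      rw [Finset.sum_comm]
      apply Finset.sum_congr rfl
      intro k _
      rw [Matrix.mul_apply, map_sum, Finset.sum_mul]
      apply Finset.sum_congr rfl
      intro j _
      rw [map_mul]
      ring
    rw [h2, h]
    rw [Finset.sum_eq_single i]
    · simp
    · intro k _ hk
      rw [Matrix.one_apply_ne (Ne.symm hk)]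
      simp
    · simp
  rw [h1]
  simp [bind₁_X_left]

theorem form_deg {F : Type*} [Field F] {n : ℕ} (T : Matrix (Fin n) (Fin n) F)
    (P : MvPolynomial (Fin n) F) : (bind₁ (form T) P).totalDegree ≤ P.totalDegree := by
  have h1 : ∀ i, (form T i).totalDegree ≤ 1 := by
    intro i
    apply totalDegree_finsetSum_le
    intro j _
    refine (totalDegree_mul _ _).trans ?_
    rw [totalDegree_C, zero_add]
    exact (totalDegree_X (R := F) j).le
  conv_lhs => rw [P.as_sum]
  rw [map_sum]
  apply totalDegree_finsetSum_le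
  intro d hd
  rw [bind₁_monomial]
  refine (totalDegree_mul _ _).trans ?_
  rw [totalDegree_C, zero_add]
  refine (totalDegree_finsetProd _ _).trans ?_
  have h2 : ∑ i ∈ d.support, ((form T i) ^ d i).totalDegree ≤ ∑ i ∈ d.support, d i := by
    apply Finset.sum_le_sum
    intro i _
    refine (totalDegree_pow _ _).trans ?_
    calc d i * (form T i).totalDegree ≤ d i * 1 := Nat.mul_le_mul_left _ (h1 i)
      _ = d i := mul_one _
  refine h2.trans ?_
  exact le_totalDegree hd

/-- Nullstellensatz on boxes in a second basis, any base point. -/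
theorem ns {F : Type*} [Field F] {n : ℕ} (P : MvPolynomial (Fin n) F) (hP : P ≠ 0)
    (T T' : Matrix (Fin n) (Fin n) F) (hT : T * T' = 1)
    (inj : ∀ a b : ℕ, a ≤ P.totalDegree → b ≤ P.totalDegree → (a : F) = (b : F) → a = b) :
    ∃ γ : Fin n → ℕ, ∑ i, γ i ≤ P.totalDegree ∧ ∀ b : Fin n → F, ∃ m : Fin n → ℕ,
      (∀ i, m i ≤ γ i) ∧ eval (fun i => b i + ∑ j, T i j * (m j : F)) P ≠ 0 := by
  classical
  set Q := bind₁ (form T) P with hQ
  have hQ0 : Q ≠ 0 := by
    intro h0
    apply hP
    rw [← form_bind T T' hT P, ← hQ, h0, map_zero]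
  have hQd : Q.totalDegree ≤ P.totalDegree := form_deg T P
  obtain ⟨γ, hγ, hγd⟩ : ∃ γ ∈ Q.support, Q.totalDegree = γ.degree := by
    have hne : Q.support.Nonempty := by
      rw [MvPolynomial.support_nonempty]
      exact hQ0
    obtain ⟨γ, hγ, h⟩ := Finset.exists_mem_eq_sup Q.support hne (fun s => s.sum fun _ e => e)
    refine ⟨γ, hγ, ?_⟩
    rw [totalDegree, h]
    rfl
  have hle : ∀ i, γ i ≤ P.totalDegree := by
    intro i
    refine le_trans ?_ hQd
    rw [hγd]
    exact Finsupp.le_degree i γ
  refine ⟨γ, ?_, ?_⟩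
  · refine le_trans (le_of_eq ?_) hQd
    rw [hγd, Finsupp.degree_eq_sum]
  · intro b
    have hcard : ∀ i, γ i < (Finset.image (fun k : ℕ => (T'.mulVec b) i + (k : F))
        (Finset.range (γ i + 1))).card := by
      intro i
      rw [Finset.card_image_of_injOn]
      · simp
      · intro x hx y hy hxy
        simp only [Finset.coe_range, Set.mem_Iio, Nat.lt_succ_iff] at hx hy
        exact inj x y (hx.trans (hle i)) (hy.trans (hle i)) (add_left_cancel hxy)
    obtain ⟨x, hx, hxQ⟩ := combinatorial_nullstellensatz_exists_eval_nonzero Q γ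
      (by rwa [mem_support_iff] at hγ) hγd _ hcard
    have hm : ∀ i, ∃ k : ℕ, k ≤ γ i ∧ (T'.mulVec b) i + (k : F) = x i := by
      intro i
      have := hx i
      rw [Finset.mem_image] at this
      obtain ⟨k, hk, hkx⟩ := this
      exact ⟨k, Nat.lt_succ_iff.mp (Finset.mem_range.mp hk), hkx⟩
    choose m hm1 hm2 using hm
    refine ⟨m, hm1, ?_⟩
    have hev : eval x Q = eval (fun i => b i + ∑ j, T i j * (m j : F)) P := by
      have hb : eval x (bind₁ (form T) P) = eval (fun i => eval x (form T i)) P := by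
        show eval₂Hom (RingHom.id F) x (bind₁ (form T) P) = _
        rw [eval₂Hom_bind₁]
        rfl
      rw [hQ, hb]
      congr 2
      funext i
      unfold form
      rw [map_sum]
      simp only [map_mul, eval_C, eval_X]
      have h3 : ∑ j, T i j * x j = ∑ j, T i j * (T'.mulVec b) j + ∑ j, T i j * (m j : F) := by
        rw [← Finset.sum_add_distrib]
        apply Finset.sum_congr rfl
        intro j _
        rw [← hm2 j]
        ring
      rw [h3]
      congr 1
      have h4 : (T.mulVec (T'.mulVec b)) i = b i := by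
        rw [Matrix.mulVec_mulVec, hT, Matrix.one_mulVec]
      exact h4
    rwa [hev] at hxQ

/-- A polynomial of degree `< s` plus a multiple of `w ^ k`, `w ≠ 1`, cannot vanish for
`k = 0, …, s`, unless the multiple is zero. -/
theorem line_char {F : Type*} [Field F] (s : ℕ) (p : Polynomial F) (hp : p.natDegree < s)
    (c w : F) (hw : w ≠ 1) (h : ∀ k : ℕ, k ≤ s → p.eval (k : F) + c * w ^ k = 0) : c = 0 := by
  have h1 : (fwdDiff (1 : F))^[s] (fun x => p.eval x) 0 = 0 := by
    have := Polynomial.fwdDiff_iter_eq_zero_of_degree_lt (R := F) hp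
    have h2 := congrFun this 0
    simpa using h2
  rw [fwdDiff_iter_eq_sum_shift] at h1
  have h2 : ∑ k ∈ range (s + 1), ((-1 : ℤ) ^ (s - k) * s.choose k) • p.eval ((0 : F) + k • (1 : F))
      = - (c * (w - 1) ^ s) := by
    have h3 : (w - 1) ^ s = ∑ k ∈ range (s + 1), w ^ k * (-1) ^ (s - k) * (s.choose k : F) := by
      rw [sub_eq_add_neg, add_pow]
    rw [h3, Finset.mul_sum, ← Finset.sum_neg_distrib]
    apply Finset.sum_congr rfl
    intro k hk
    have hk' : k ≤ s := Nat.lt_succ_iff.mp (Finset.mem_range.mp hk)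
    have h4 := h k hk'
    have h5 : p.eval (k : F) = - (c * w ^ k) := by linear_combination h4
    rw [zero_add, nsmul_one, h5, zsmul_eq_mul]
    push_cast
    ring
  rw [h2] at h1
  have h3 : c * (w - 1) ^ s = 0 := by linear_combination -h1
  rcases mul_eq_zero.mp h3 with h4 | h4
  · exact h4
  · exact absurd (pow_eq_zero_iff (by omega : s ≠ 0) |>.mp h4) (sub_ne_zero.mpr hw)

end Pool.Agent.Helper17.ZE
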